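import Mathlib
import Pool.Agent.Helper30.CIR.Goals

/-!
# Packet CIR-MOB (MP_f32c9c_an): the Moebius recursion on the circle
-/

set_option autoImplicit false

open Set Filter Topology MeasureTheory

namespace Pool.Agent.Helper95.CIR

open Pool.Agent.Helper30.CIR

theorem ee_norm (τ : ℝ) : ‖ee τ‖ = 1 := by
  unfold ee
  exact Complex.norm_exp_ofReal_mul_I _

theorem ee_cont : Continuous ee := by
  unfold ee
  fun_prop

/-- the numerator and denominator polynomials -/
noncomputable def UV (a : ℕ → ℂ) : ℕ → Polynomial ℂ × Polynomial ℂ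
  | 0 => (Polynomial.X, 1)
  | k + 1 => (Polynomial.X * ((UV a k).1 + Polynomial.C ((starRingEnd ℂ) (a k)) * (UV a k).2),
      (UV a k).2 + Polynomial.C (a k) * (UV a k).1)

theorem one_add_ne {a w : ℂ} (ha : ‖a‖ ≤ 1 / 2) (hw : ‖w‖ = 1) : 1 + a * w ≠ 0 := by
  intro h
  have h1 : a * w = -1 := by linear_combination h
  have h2 : ‖a * w‖ = 1 := by rw [h1]; simp
  rw [norm_mul, hw, mul_one] at h2
  linarith

theorem norm_step {a w : ℂ} (hw : ‖w‖ = 1) : ‖w + (starRingEnd ℂ) a‖ = ‖1 + a * w‖ := by
  have h1 : w * (starRingEnd ℂ) w = 1 := by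
    rw [Complex.mul_conj, Complex.normSq_eq_norm_sq, hw]
    simp
  have h2 : w + (starRingEnd ℂ) a = w * (starRingEnd ℂ) (1 + a * w) := by
    rw [map_add, map_mul, map_one]
    linear_combination (-(starRingEnd ℂ) a) * h1
  rw [h2, norm_mul, hw, one_mul, Complex.norm_conj]

theorem gMOB : StmtJEN → StmtMOB := by
  intro hJ a ha w hw0 hws
  have hn : ∀ k τ, ‖w k τ‖ = 1 := by
    intro k
    induction k with
    | zero => intro τ; rw [hw0]; exact ee_norm τ
    | succ k ih =>
      intro τ
      rw [hws, norm_div, norm_mul, ee_norm, one_mul, norm_step (ih τ)]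
      exact div_self (norm_ne_zero_iff.mpr (one_add_ne (ha k) (ih τ)))
  have hne : ∀ k τ, 1 + a k * w k τ ≠ 0 := fun k τ => one_add_ne (ha k) (hn k τ)
  have hc : ∀ k, Continuous (w k) := by
    intro k
    induction k with
    | zero =>
      have : w 0 = ee := funext hw0
      rw [this]
      exact ee_cont
    | succ k ih =>
      have : w (k + 1) = fun τ => ee τ * (w k τ + (starRingEnd ℂ) (a k)) / (1 + a k * w k τ) :=
        funext (hws k)
      rw [this]
      exact (ee_cont.mul (ih.add continuous_const)).div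
        (continuous_const.add (continuous_const.mul ih)) (hne k)
  refine ⟨hn, hc, fun n => ?_⟩
  have hev : ∀ τ k, ((UV a k).2).eval (ee τ) = ∏ j ∈ Finset.range k, (1 + a j * w j τ) ∧
      ((UV a k).1).eval (ee τ) = w k τ * ((UV a k).2).eval (ee τ) := by
    intro τ k
    induction k with
    | zero => simp [UV, hw0]
    | succ k ih =>
      obtain ⟨h1, h2⟩ := ih
      have h3 : ((UV a (k + 1)).2).eval (ee τ) =
          (1 + a k * w k τ) * ((UV a k).2).eval (ee τ) := by
        simp only [UV, Polynomial.eval_add, Polynomial.eval_mul, Polynomial.eval_C, h2]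
        ring
      refine ⟨?_, ?_⟩
      · rw [h3, h1, Finset.prod_range_succ, mul_comm]
      · rw [h3, hws]
        simp only [UV, Polynomial.eval_add, Polynomial.eval_mul, Polynomial.eval_C,
          Polynomial.eval_X, h2]
        rw [div_mul_eq_mul_div, eq_div_iff (hne k τ)]
        ring
  have h0 : ∀ k, ((UV a k).2).eval 0 = 1 ∧ ((UV a k).1).eval 0 = 0 := by
    intro k
    induction k with
    | zero => simp [UV]
    | succ k ih =>
      obtain ⟨h1, h2⟩ := ih
      simp [UV, h1, h2]
  have h := hJ ((UV a n).2) (h0 n).1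
  have hfun : (fun τ : ℝ => Real.log ‖((UV a n).2).eval (ee τ)‖) =
      fun τ : ℝ => ∑ k ∈ Finset.range n, Real.log ‖1 + a k * w k τ‖ := by
    funext τ
    rw [(hev τ n).1, norm_prod]
    exact Real.log_prod (fun k _ => norm_ne_zero_iff.mpr (hne k τ))
  rw [hfun] at h
  exact h

end Pool.Agent.Helper95.CIR
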